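import Pool.Agent.H73.PHS.Stmts

/-!
Row BMP of the board `phs`: bump functions.
-/

set_option autoImplicit false

namespace Pool.PHS

open Set Filter Topology MeasureTheory Metric

theorem BMP_thm : BMPStmt := by
  intro n w r hr
  let f : ContDiffBump w := ⟨r / 2, r, by linarith, by linarith⟩
  refine ⟨f, f.contDiff, fun x => f.nonneg, fun x hx => f.pos_of_mem_ball ?_, fun x hx =>
    f.zero_of_le_dist ?_⟩
  · rw [mem_ball, dist_eq_norm]
    exact hx
  · rw [dist_eq_norm]
    exact hx

end Pool.PHS
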